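import Pool.Agent.TH340.RC.Cmp

/-!
From the rates of strain to the vorticity.
-/

set_option autoImplicit false

open MeasureTheory Set Filter Topology
open scoped ENNReal

namespace Pool.Agent.TH340.RC

open Pool.Agent.H708R2.EulerSign Pool.Agent.H708R2.EulerTypeI Pool.Agent.W786.Max
  Pool.Agent.W786.Dir

variable {T : ℝ} {u : ℝ → V → V} {p : ℝ → V → ℝ}

/-- A traceless matrix with rates at least `-R` has rates at most `2 R`. -/
theorem upper_of_lower {A : Matrix (Fin 3) (Fin 3) ℝ} (htr : A.trace = 0) {R : ℝ}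
    (h : ∀ f : V, f ⬝ᵥ f = 1 → -(f ⬝ᵥ A.mulVec f) ≤ R) (e : V) :
    e ⬝ᵥ A.mulVec e ≤ 2 * R * (e ⬝ᵥ e) := by
  have h1 : ∀ f : V, -(f ⬝ᵥ A.mulVec f) ≤ R * (f ⬝ᵥ f) := fun f => by
    have := ext_hom (A := A) (σ := -1) (l := -R) (fun f hf => by
      have := h f hf
      linarith) f
    linarith
  have ht : A 0 0 + A 1 1 + A 2 2 = 0 := by
    simpa [Matrix.trace, Fin.sum_univ_three] using htr
  have a0 := h1 ![0, -e 2, e 1]
  have a1 := h1 ![e 2, 0, -e 0]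
  have a2 := h1 ![-e 1, e 0, 0]
  simp only [dotProduct, Matrix.mulVec, Fin.sum_univ_three, Matrix.cons_val_zero,
    Matrix.cons_val_one, Matrix.cons_val] at a0 a1 a2 ⊢
  have key : (e 0 * e 0 + e 1 * e 1 + e 2 * e 2) * (A 0 0 + A 1 1 + A 2 2) = 0 := by
    rw [ht, mul_zero]
  nlinarith

/-- growth of the vorticity -/
theorem vort_le (h : IsC2Solution T u p) {k s b : ℝ} (hk : 0 ≤ k) (hs : 0 < s) (hsb : s ≤ b)
    (hb : b < T) {R : ℝ → ℝ} (hR : MonotoneOn R (Icc s b)) (hR0 : ∀ t ∈ Icc s b, 0 ≤ R t)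
    (hrate : ∀ t ∈ Icc s b, ∀ x, vort (u t) x ⬝ᵥ (grad (u t) x).mulVec (vort (u t) x)
      ≤ k * R t * (vort (u t) x ⬝ᵥ vort (u t) x))
    {W : ℝ} (hW : ∀ x, nrm (vort (u s) x) ≤ W) (x : V) :
    nrm (vort (u b) x) ≤ W * Real.exp (k * ∫ r in s..b, R r) := by
  obtain ⟨X, hX, hXx⟩ := exists_traj h.sol hs.le hsb hb x
  have hRi : IntegrableOn R (Icc s b) := by
    have : MonotoneOn R (uIcc s b) := by rwa [uIcc_of_le hsb]
    exact (intervalIntegrable_iff_integrableOn_Icc_of_le hsb).1 this.intervalIntegrable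
  have h1 := growth' h hs.le hsb hb hX (ρ := fun t => k * R t) (Integrable.const_mul hRi k)
    (fun t ht => mul_nonneg hk (hR0 t (Ioo_subset_Icc_self ht)))
    (fun t ht => hrate t (Ioo_subset_Icc_self ht) (X t))
  rw [hXx, intervalIntegral.integral_const_mul] at h1
  refine h1.trans ?_
  have := hW (X s)
  gcongr

/-- the Beale-Kato-Majda integral -/
theorem bkm_of_bound (h : IsClassicalSolution (Ico 0 T) u p) {s : ℝ} (hs : s ∈ Ioo 0 T)
    {F : ℝ → ℝ} (hF : ∀ t ∈ Ico s T, ∀ x, nrm (vort (u t) x) ≤ F t)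
    (hFi : ∫⁻ t in Ioo s T, ENNReal.ofReal (F t) < ∞) : BKMFinite T u := by
  obtain ⟨M, hM0, hM⟩ := vort_bound h hs.2
  have hfin2 : ∫⁻ t in Ico s T, ⨆ x, ENNReal.ofReal (nrm (vort (u t) x)) < ∞ := by
    have h0 : (volume.restrict (Ico s T) : Measure ℝ) = volume.restrict (Ioo s T) :=
      Measure.restrict_congr_set Ioo_ae_eq_Ico.symm
    rw [h0]
    refine lt_of_le_of_lt (setLIntegral_mono' measurableSet_Ioo fun t ht => ?_) hFi
    exact iSup_le fun x => ENNReal.ofReal_le_ofReal (hF t ⟨ht.1.le, ht.2⟩ x)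
  have hfin1 : ∫⁻ t in Ioo 0 s, ⨆ x, ENNReal.ofReal (nrm (vort (u t) x)) < ∞ := by
    have h1 : ∫⁻ t in Ioo 0 s, ⨆ x, ENNReal.ofReal (nrm (vort (u t) x))
        ≤ ∫⁻ _t in Ioo 0 s, ENNReal.ofReal M := by
      refine setLIntegral_mono' measurableSet_Ioo fun t ht => ?_
      exact iSup_le fun x => ENNReal.ofReal_le_ofReal (hM t ⟨ht.1.le, ht.2.le⟩ x).1
    refine h1.trans_lt ?_
    rw [setLIntegral_const, Real.volume_Ioo]
    exact ENNReal.mul_lt_top ENNReal.ofReal_lt_top ENNReal.ofReal_lt_top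
  unfold BKMFinite
  have hsplit : Ioo 0 T ⊆ Ioo 0 s ∪ Ico s T := by
    intro t ht
    by_cases h1 : t < s
    · exact Or.inl ⟨ht.1, h1⟩
    · exact Or.inr ⟨not_lt.1 h1, ht.2⟩
  refine (lintegral_mono_set hsplit).trans_lt ?_
  refine (lintegral_union_le _ _ _).trans_lt ?_
  exact ENNReal.add_lt_top.2 ⟨hfin1, hfin2⟩

/-- the largest rate is nonnegative -/
theorem exists_nonneg {A : Matrix (Fin 3) (Fin 3) ℝ} (htr : A.trace = 0) {σ R : ℝ}
    (h : ∀ f : V, f ⬝ᵥ f = 1 → σ * (f ⬝ᵥ A.mulVec f) ≤ R) : 0 ≤ R := by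
  have ht : A 0 0 + A 1 1 + A 2 2 = 0 := by
    simpa [Matrix.trace, Fin.sum_univ_three] using htr
  have hu : ∀ i : Fin 3, (Pi.single i 1 : V) ⬝ᵥ (Pi.single i 1 : V) = 1 := fun i => by simp
  have a0 := h _ (hu 0)
  have a1 := h _ (hu 1)
  have a2 := h _ (hu 2)
  have e : ∀ i : Fin 3, (Pi.single i 1 : V) ⬝ᵥ A.mulVec (Pi.single i 1 : V) = A i i := fun i => by
    simp
  rw [e] at a0 a1 a2
  have : σ * (A 0 0 + A 1 1 + A 2 2) = 0 := by rw [ht, mul_zero]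
  nlinarith

/-- **Compression**, general form. -/
theorem compression {θ : ℝ} (hθ : 0 ≤ θ) (h : IsC2Solution T u p) {s : ℝ} (hs : s ∈ Ioo 0 T)
    {R μ : ℝ → ℝ} (hR : MonotoneOn R (Ico s T))
    (hRd : ∀ᵐ t, t ∈ Ioo s T → ∀ d, HasDerivAt R d t → θ * R t ^ 2 + μ t ≤ d)
    (h0 : ∀ x e, e ⬝ᵥ e = 1 → -R s ≤ rate (u s) x e)
    (hcond : ∀ᵐ t, t ∈ Ioo s T → CondC θ (μ t) (u t) (p t)) :
    (∀ t ∈ Ico s T, ∀ x e, e ⬝ᵥ e = 1 → -R t ≤ rate (u t) x e) ∧
    ∀ W : ℝ, (∀ x, nrm (vort (u s) x) ≤ W) → ∀ t ∈ Ico s T, ∀ x,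
      nrm (vort (u t) x) ≤ W * Real.exp (2 * ∫ r in s..t, R r) := by
  have h1 : ∀ t ∈ Ico s T, ∀ x e, e ⬝ᵥ e = 1 → (-1) * rate (u t) x e ≤ R t := by
    intro t ht
    have hsub : Icc s t ⊆ Ico s T := Icc_subset_Ico_right ht.2
    refine compare (σ := -1) (μ := μ) (by simp) hθ h hs.1 ht.1 ht.2 (hR.mono hsub) ?_ ?_ ?_
    · filter_upwards [hRd] with r hr hrI
      exact hr ⟨hrI.1, hrI.2.trans ht.2⟩
    · intro x e he
      have := h0 x e he
      linarith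
    · filter_upwards [hcond] with r hr hrI
      obtain ⟨x, e, hxe, hc⟩ := hr ⟨hrI.1, hrI.2.trans ht.2⟩
      have hext : Extreme (-1) (u r) x e := ⟨hxe.1, fun y f hf => by
        have := hxe.2 y f hf
        linarith⟩
      refine ⟨x, e, hext, ?_⟩
      rw [ext_sq (by norm_num) hext]
      linarith
  have h2 : ∀ t ∈ Ico s T, ∀ x e, e ⬝ᵥ e = 1 → -R t ≤ rate (u t) x e := by
    intro t ht x e he
    have := h1 t ht x e he
    linarith
  refine ⟨h2, fun W hW t ht x => ?_⟩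
  have hsub : Icc s t ⊆ Ico s T := Icc_subset_Ico_right ht.2
  refine vort_le h (k := 2) (by norm_num) hs.1 ht.1 ht.2 (hR.mono hsub) ?_ ?_ hW x
  · intro r hr
    have hrT := hsub hr
    exact exists_nonneg (h.sol.div_free r ⟨hs.1.le.trans hrT.1, hrT.2⟩ 0) (σ := -1)
      (fun f hf => h1 r hrT 0 f hf)
  · intro r hr y
    have hrT := hsub hr
    refine upper_of_lower (h.sol.div_free r ⟨hs.1.le.trans hrT.1, hrT.2⟩ y) (fun f hf => ?_) _
    have := h2 r hrT y f hf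
    have e1 : rate (u r) y f = f ⬝ᵥ (grad (u r) y).mulVec f := rfl
    rw [e1] at this
    linarith

/-- **Stretching**, general form. -/
theorem stretching {θ : ℝ} (hθ : 0 ≤ θ) (h : IsC2Solution T u p) {s : ℝ} (hs : s ∈ Ioo 0 T)
    {R μ : ℝ → ℝ} (hR : MonotoneOn R (Ico s T))
    (hRd : ∀ᵐ t, t ∈ Ioo s T → ∀ d, HasDerivAt R d t → θ * R t ^ 2 + μ t ≤ d)
    (h0 : ∀ x e, e ⬝ᵥ e = 1 → rate (u s) x e ≤ R s)
    (hcond : ∀ᵐ t, t ∈ Ioo s T → CondS θ (μ t) (u t) (p t)) :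
    (∀ t ∈ Ico s T, ∀ x e, e ⬝ᵥ e = 1 → rate (u t) x e ≤ R t) ∧
    ∀ W : ℝ, (∀ x, nrm (vort (u s) x) ≤ W) → ∀ t ∈ Ico s T, ∀ x,
      nrm (vort (u t) x) ≤ W * Real.exp (1 * ∫ r in s..t, R r) := by
  have h1 : ∀ t ∈ Ico s T, ∀ x e, e ⬝ᵥ e = 1 → 1 * rate (u t) x e ≤ R t := by
    intro t ht
    have hsub : Icc s t ⊆ Ico s T := Icc_subset_Ico_right ht.2
    refine compare (σ := 1) (μ := μ) (by simp) hθ h hs.1 ht.1 ht.2 (hR.mono hsub) ?_ ?_ ?_
    · filter_upwards [hRd] with r hr hrI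
      exact hr ⟨hrI.1, hrI.2.trans ht.2⟩
    · intro x e he
      have := h0 x e he
      linarith
    · filter_upwards [hcond] with r hr hrI
      obtain ⟨x, e, hxe, hc⟩ := hr ⟨hrI.1, hrI.2.trans ht.2⟩
      have hext : Extreme 1 (u r) x e := ⟨hxe.1, fun y f hf => by
        have := hxe.2 y f hf
        linarith⟩
      refine ⟨x, e, hext, ?_⟩
      rw [ext_sq (by norm_num) hext]
      linarith
  have h2 : ∀ t ∈ Ico s T, ∀ x e, e ⬝ᵥ e = 1 → rate (u t) x e ≤ R t := by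
    intro t ht x e he
    have := h1 t ht x e he
    linarith
  refine ⟨h2, fun W hW t ht x => ?_⟩
  have hsub : Icc s t ⊆ Ico s T := Icc_subset_Ico_right ht.2
  refine vort_le h (k := 1) (by norm_num) hs.1 ht.1 ht.2 (hR.mono hsub) ?_ ?_ hW x
  · intro r hr
    have hrT := hsub hr
    exact exists_nonneg (h.sol.div_free r ⟨hs.1.le.trans hrT.1, hrT.2⟩ 0) (σ := 1)
      (fun f hf => h1 r hrT 0 f hf)
  · intro r hr y
    have hrT := hsub hr
    have := ext_hom (A := grad (u r) y) (σ := 1) (l := R r) (fun f hf => by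
      have := h2 r hrT y f hf
      have e1 : rate (u r) y f = f ⬝ᵥ (grad (u r) y).mulVec f := rfl
      rw [e1] at this
      linarith) (vort (u r) y)
    linarith

end Pool.Agent.TH340.RC
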