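import Pool.Agent.TH340.RC.Ext

/-!
Bounds, and the maximum of the rates of strain.
-/

set_option autoImplicit false

open MeasureTheory Set Filter Topology

namespace Pool.Agent.TH340.RC

open Pool.Agent.H708R2.EulerSign Pool.Agent.H708R2.EulerTypeI

variable {T : ℝ} {u : ℝ → V → V} {p : ℝ → V → ℝ}

theorem form_bound {A : Matrix (Fin 3) (Fin 3) ℝ} {K : ℝ} (hK : ∀ i j, |A i j| ≤ K) {e : V}
    (he : e ⬝ᵥ e = 1) : |e ⬝ᵥ A.mulVec e| ≤ 9 * K := by
  have h1 : ∀ i, |e i| ≤ 1 := by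
    intro i
    have h2 : e i * e i ≤ 1 := by
      rw [← he]
      exact Finset.single_le_sum (f := fun i => e i * e i) (fun j _ => mul_self_nonneg _)
        (Finset.mem_univ i)
    exact abs_le_one_iff_mul_self_le_one.2 h2
  have hK0 : 0 ≤ K := (abs_nonneg _).trans (hK 0 0)
  rw [form_eq]
  calc |∑ i, ∑ j, e i * e j * A i j| ≤ ∑ i, ∑ j, |e i * e j * A i j| :=
        (Finset.abs_sum_le_sum_abs _ _).trans (Finset.sum_le_sum fun i _ =>
          Finset.abs_sum_le_sum_abs _ _)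
    _ ≤ ∑ _i : Fin 3, ∑ _j : Fin 3, K := by
        refine Finset.sum_le_sum fun i _ => Finset.sum_le_sum fun j _ => ?_
        rw [abs_mul, abs_mul]
        calc |e i| * |e j| * |A i j| ≤ 1 * 1 * K := by
              have := h1 i; have := h1 j; have := hK i j
              gcongr
          _ = K := by ring
    _ = 9 * K := by
        simp only [Finset.sum_const, Finset.card_univ, Fintype.card_fin, nsmul_eq_mul]
        push_cast
        ring

theorem sq_bound {A : Matrix (Fin 3) (Fin 3) ℝ} {K : ℝ} (hK : ∀ i j, |A i j| ≤ K) (i j : Fin 3) :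
    |(A * A) i j| ≤ 3 * K ^ 2 := by
  have hK0 : 0 ≤ K := (abs_nonneg _).trans (hK 0 0)
  rw [Matrix.mul_apply]
  calc |∑ k, A i k * A k j| ≤ ∑ k, |A i k * A k j| := Finset.abs_sum_le_sum_abs _ _
    _ ≤ ∑ _k : Fin 3, K ^ 2 := by
        refine Finset.sum_le_sum fun k _ => ?_
        rw [abs_mul, sq]
        have := hK i k; have := hK k j
        gcongr
    _ = 3 * K ^ 2 := by simp

theorem per_fderiv {f : V → ℝ} (hf : Periodic3 f) (e : V) :
    Periodic3 fun y => fderiv ℝ f y e := by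
  intro i x
  have h1 : (fun y => f (y + Pi.single i (2 * Real.pi))) = f := funext fun y => hf i y
  have h2 := fderiv_comp_add_right (𝕜 := ℝ) (f := f) (x := x) (Pi.single i (2 * Real.pi))
  rw [h1] at h2
  simp only
  rw [← h2]

/-- the Hessian of the pressure is bounded on compact time intervals in `(0, T)` -/
theorem hess_bound (h : IsC2Solution T u p) {a b : ℝ} (ha : 0 < a) (hb : b < T) :
    ∃ C : ℝ, 0 ≤ C ∧ ∀ t ∈ Icc a b, ∀ x i j, |hess (p t) x i j| ≤ C := by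
  have hsub : Icc a b ⊆ Ioo 0 T := fun t ht => ⟨ha.trans_le ht.1, ht.2.trans_lt hb⟩
  have hc : ContinuousOn (fderiv ℝ (fderiv ℝ (fun z : ℝ × V => p z.1 z.2))) (Om T) :=
    (h.p2.fderiv_of_isOpen isOpen_Om (m := 1) (by norm_num)).continuousOn_fderiv_of_isOpen
      isOpen_Om (by norm_num)
  have : ∀ i j, ∃ C : ℝ, 0 ≤ C ∧ ∀ t ∈ Icc a b, ∀ x, ‖hess (p t) x i j‖ ≤ C := by
    intro i j
    refine bound_on_slab (f := fun t x => hess (p t) x i j) ?_ ?_
    · have h1 : ContinuousOn (fun z : ℝ × V =>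
          fderiv ℝ (fderiv ℝ (fun z : ℝ × V => p z.1 z.2)) z (0, Pi.single j 1)
            (0, Pi.single i 1)) (Icc a b ×ˢ univ) :=
        ((hc.mono (prod_mono hsub subset_rfl)).clm_apply continuousOn_const).clm_apply
          continuousOn_const
      refine h1.congr fun z hz => ?_
      exact h.hess_eq (z := z) ⟨hsub hz.1, mem_univ _⟩ i j
    · intro t ht
      have h1 := h.sol.periodic_p t (Ioo_subset_Ico_self (hsub ht))
      exact per_fderiv (per_fderiv h1 _) _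
  choose C hC0 hC using this
  refine ⟨∑ i, ∑ j, C i j, Finset.sum_nonneg fun i _ => Finset.sum_nonneg fun j _ => hC0 i j,
    fun t ht x i j => (hC i j t ht x).trans ?_⟩
  calc C i j ≤ ∑ j, C i j := Finset.single_le_sum (f := fun j => C i j) (fun j _ => hC0 i j)
        (Finset.mem_univ j)
    _ ≤ ∑ i, ∑ j, C i j := Finset.single_le_sum (f := fun i => ∑ j, C i j)
        (fun i _ => Finset.sum_nonneg fun j _ => hC0 i j) (Finset.mem_univ i)

/-- the largest value of `σ` times the rate -/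
noncomputable def Em (σ : ℝ) (u : ℝ → V → V) (t : ℝ) : ℝ :=
  ⨆ q : V × {e : V // e ⬝ᵥ e = 1}, σ * rate (u t) q.1 q.2

theorem unit_one : (Pi.single 0 1 : V) ⬝ᵥ (Pi.single 0 1 : V) = 1 := by
  simp

instance : Nonempty (V × {e : V // e ⬝ᵥ e = 1}) := ⟨(0, ⟨Pi.single 0 1, unit_one⟩)⟩

theorem Em_bdd (h : IsClassicalSolution (Ico 0 T) u p) {b : ℝ} (hb : b < T) :
    ∃ C : ℝ, 0 ≤ C ∧ ∀ t ∈ Icc 0 b, ∀ x e, e ⬝ᵥ e = 1 → |rate (u t) x e| ≤ C := by
  obtain ⟨K, hK0, hK⟩ := grad_bound h hb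
  exact ⟨9 * K, by positivity, fun t ht x e he => form_bound (fun i j => hK t ht x i j) he⟩

theorem Em_bddAbove {σ : ℝ} (hσ : |σ| ≤ 1) (h : IsClassicalSolution (Ico 0 T) u p) {t : ℝ}
    (ht : t ∈ Ico 0 T) :
    BddAbove (range fun q : V × {e : V // e ⬝ᵥ e = 1} => σ * rate (u t) q.1 q.2) := by
  obtain ⟨C, hC0, hC⟩ := Em_bdd h ht.2
  refine ⟨C, ?_⟩
  rintro _ ⟨q, rfl⟩
  have h1 := hC t ⟨ht.1, le_rfl⟩ q.1 q.2 q.2.2
  calc σ * rate (u t) q.1 q.2 ≤ |σ * rate (u t) q.1 q.2| := le_abs_self _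
    _ = |σ| * |rate (u t) q.1 q.2| := abs_mul _ _
    _ ≤ 1 * C := by gcongr
    _ = C := one_mul C

theorem le_Em {σ : ℝ} (hσ : |σ| ≤ 1) (h : IsClassicalSolution (Ico 0 T) u p) {t : ℝ}
    (ht : t ∈ Ico 0 T) (x : V) {e : V} (he : e ⬝ᵥ e = 1) : σ * rate (u t) x e ≤ Em σ u t :=
  le_ciSup (Em_bddAbove hσ h ht) ((x, ⟨e, he⟩) : V × {e : V // e ⬝ᵥ e = 1})

theorem Em_le {σ C t : ℝ} (h : ∀ x e, e ⬝ᵥ e = 1 → σ * rate (u t) x e ≤ C) : Em σ u t ≤ C :=
  ciSup_le fun q => h q.1 q.2 q.2.2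

theorem Em_eq {σ : ℝ} (hσ : |σ| ≤ 1) (h : IsClassicalSolution (Ico 0 T) u p) {t : ℝ}
    (ht : t ∈ Ico 0 T) {x e : V} (he : Extreme σ (u t) x e) : Em σ u t = σ * rate (u t) x e :=
  le_antisymm (Em_le fun y f hf => he.2 y f hf) (le_Em hσ h ht x he.1)

/-- the maximum has bounded upward increments -/
theorem Em_growth {σ : ℝ} (hσ : |σ| ≤ 1) (h : IsC2Solution T u p) {a b : ℝ} (ha : 0 < a)
    (hb : b < T) :
    ∃ C : ℝ, 0 ≤ C ∧ ∀ s ∈ Icc a b, ∀ t ∈ Icc a b, s ≤ t →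
      Em σ u t - Em σ u s ≤ C * (t - s) := by
  obtain ⟨K, hK0, hK⟩ := grad_bound h.sol hb
  obtain ⟨K2, hK20, hK2⟩ := hess_bound h ha hb
  refine ⟨9 * (3 * K ^ 2) + 9 * K2, by positivity, fun s hs t ht hst => ?_⟩
  have htT : t < T := ht.2.trans_lt hb
  have hs0 : 0 < s := ha.trans_le hs.1
  have key : ∀ x e, e ⬝ᵥ e = 1 →
      σ * rate (u t) x e ≤ Em σ u s + (9 * (3 * K ^ 2) + 9 * K2) * (t - s) := by
    intro x e he
    obtain ⟨X, hX, hXx⟩ := exists_traj h.sol hs0.le hst htT x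
    have hsub : Icc s t ⊆ Ioo 0 T := fun r hr => ⟨hs0.trans_le hr.1, hr.2.trans_lt htT⟩
    have hd := fun r (hr : r ∈ Icc s t) => rate_deriv h hX hsub hr e
    have hbd : ∀ r ∈ Icc s t, ‖-(e ⬝ᵥ (grad (u r) (X r) * grad (u r) (X r)).mulVec e)
        - hessRate (p r) (X r) e‖ ≤ 9 * (3 * K ^ 2) + 9 * K2 := by
      intro r hr
      rw [Real.norm_eq_abs]
      have h1 := form_bound (A := grad (u r) (X r) * grad (u r) (X r)) (K := 3 * K ^ 2)
        (fun i j => sq_bound (fun i j => hK r ⟨(hs0.trans_le hr.1).le, hr.2.trans ht.2⟩ _ i j) i j)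
        he
      have h2 := form_bound (A := hess (p r) (X r)) (K := K2)
        (fun i j => hK2 r ⟨hs.1.trans hr.1, hr.2.trans ht.2⟩ _ i j) he
      calc |-(e ⬝ᵥ (grad (u r) (X r) * grad (u r) (X r)).mulVec e) - hessRate (p r) (X r) e|
          ≤ |-(e ⬝ᵥ (grad (u r) (X r) * grad (u r) (X r)).mulVec e)|
            + |hessRate (p r) (X r) e| := abs_sub _ _
        _ ≤ _ := by
            rw [abs_neg]
            exact add_le_add h1 h2
    have h3 := (convex_Icc s t).norm_image_sub_le_of_norm_hasDerivWithin_le hd hbd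
      (left_mem_Icc.2 hst) (right_mem_Icc.2 hst)
    rw [hXx, Real.norm_eq_abs, Real.norm_eq_abs, abs_of_nonneg (by linarith : 0 ≤ t - s)] at h3
    have h4 := le_Em hσ h.sol (t := s) ⟨hs0.le, hst.trans_lt htT⟩ (X s) he
    have h5 : σ * rate (u t) x e - σ * rate (u s) (X s) e
        ≤ |rate (u t) x e - rate (u s) (X s) e| := by
      rw [← mul_sub]
      calc σ * (rate (u t) x e - rate (u s) (X s) e)
          ≤ |σ * (rate (u t) x e - rate (u s) (X s) e)| := le_abs_self _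
        _ = |σ| * |rate (u t) x e - rate (u s) (X s) e| := abs_mul _ _
        _ ≤ 1 * |rate (u t) x e - rate (u s) (X s) e| := by gcongr
        _ = _ := one_mul _
    linarith
  have := Em_le key
  linarith

end Pool.Agent.TH340.RC
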