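import Pool.Agent.TH340.RC.Bd

/-!
Comparison of the maximum of the rates of strain with a solution of a Riccati inequality.
-/

set_option autoImplicit false

open MeasureTheory Set Filter Topology

namespace Pool.Agent.TH340.RC

open Pool.Agent.H708R2.EulerSign Pool.Agent.H708R2.EulerTypeI Pool.Agent.W786.Max

variable {T : ℝ} {u : ℝ → V → V} {p : ℝ → V → ℝ}

/-- **Comparison**: `R` monotone, `R' ≥ θ R² + μ` almost everywhere. -/
theorem compare {σ θ : ℝ} (hσ : |σ| = 1) (hθ : 0 ≤ θ) (h : IsC2Solution T u p) {s b : ℝ}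
    (hs : 0 < s) (hsb : s ≤ b) (hb : b < T) {R μ : ℝ → ℝ} (hR : MonotoneOn R (Icc s b))
    (hRd : ∀ᵐ t, t ∈ Ioo s b → ∀ d, HasDerivAt R d t → θ * R t ^ 2 + μ t ≤ d)
    (h0 : ∀ x e, e ⬝ᵥ e = 1 → σ * rate (u s) x e ≤ R s)
    (hcond : ∀ᵐ t, t ∈ Ioo s b → ∃ x e, Extreme σ (u t) x e ∧
      σ * (-(e ⬝ᵥ (grad (u t) x * grad (u t) x).mulVec e) - hessRate (p t) x e)
        ≤ θ * rate (u t) x e ^ 2 + μ t) :
    ∀ x e, e ⬝ᵥ e = 1 → σ * rate (u b) x e ≤ R b := by
  have hσ1 : |σ| ≤ 1 := hσ.le
  have hσsq : σ ^ 2 = 1 := by rw [← sq_abs, hσ, one_pow]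
  obtain ⟨Cm, hCm0, hCm⟩ := Em_bdd h.sol hb
  obtain ⟨C, hC0, hC⟩ := Em_growth (σ := σ) hσ1 h hs hb
  set Q := Cm + (|R s| + |R b|) with hQ
  have hQ0 : 0 ≤ Q := by positivity
  set K := θ * Q with hK
  have hK0 : 0 ≤ K := by positivity
  have hEmle : ∀ t ∈ Icc s b, Em σ u t ≤ Cm := fun t ht => Em_le fun x e he => by
    have h1 := hCm t ⟨hs.le.trans ht.1, ht.2⟩ x e he
    calc σ * rate (u t) x e ≤ |σ * rate (u t) x e| := le_abs_self _
      _ = |σ| * |rate (u t) x e| := abs_mul _ _
      _ ≤ 1 * Cm := by gcongr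
      _ = Cm := one_mul _
  have hRle : ∀ t ∈ Icc s b, R t ≤ |R s| + |R b| := fun t ht => by
    have h1 := hR ht (right_mem_Icc.2 hsb) ht.2
    have h2 := le_abs_self (R b)
    have h3 := abs_nonneg (R s)
    linarith
  set L : ℝ → ℝ := fun t => max (Em σ u t - R t) 0 * Real.exp (-(K * t)) with hL
  have hL0 : ∀ t, 0 ≤ L t := fun t => mul_nonneg (le_max_right _ _) (Real.exp_pos _).le
  have hinc : ∀ r ∈ Icc s b, ∀ t ∈ Icc s b, r ≤ t → L t - L r ≤ C * (t - r) := by
    intro r hr t ht hrt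
    have h1 := hC r hr t ht hrt
    have h2 := hR hr ht hrt
    have h3 : max (Em σ u t - R t) 0 ≤ max (Em σ u r - R r) 0 + C * (t - r) := by
      refine max_le ?_ ?_
      · have := le_max_left (Em σ u r - R r) 0
        linarith
      · have := le_max_right (Em σ u r - R r) 0
        have : 0 ≤ C * (t - r) := mul_nonneg hC0 (by linarith)
        linarith
    have h4 : Real.exp (-(K * t)) ≤ Real.exp (-(K * r)) :=
      Real.exp_le_exp.2 (by nlinarith)
    have h5 : Real.exp (-(K * t)) ≤ 1 := Real.exp_le_one_iff.2 (by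
      have : 0 ≤ K * t := mul_nonneg hK0 (hs.le.trans ht.1)
      linarith)
    have h6 : 0 ≤ max (Em σ u r - R r) 0 := le_max_right _ _
    have h7 : 0 ≤ C * (t - r) := mul_nonneg hC0 (by linarith)
    calc L t - L r ≤ (max (Em σ u r - R r) 0 + C * (t - r)) * Real.exp (-(K * t))
          - max (Em σ u r - R r) 0 * Real.exp (-(K * r)) :=
          sub_le_sub_right (mul_le_mul_of_nonneg_right h3 (Real.exp_pos _).le) _
      _ ≤ C * (t - r) := by nlinarith
  have hder : ∀ᵐ t, t ∈ Ioo s b → ∀ d, HasDerivAt L d t → d ≤ (0 : ℝ) := by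
    filter_upwards [hRd, hcond, hR.ae_differentiableWithinAt_of_mem] with t k1 k2 k3 htI d hd
    have htI' : t ∈ Icc s b := Ioo_subset_Icc_self htI
    by_cases hw : Em σ u t - R t ≤ 0
    · have h1 : L t = 0 := by simp only [hL]; rw [max_eq_right hw, zero_mul]
      have h2 : IsLocalMin L t := Eventually.of_forall fun r => by rw [h1]; exact hL0 r
      rw [← hd.deriv, h2.deriv_eq_zero]
    push Not at hw
    obtain ⟨x, e, hxe, hc⟩ := k2 htI
    have hRd' : DifferentiableAt ℝ R t := (k3 htI').differentiableAt (Icc_mem_nhds htI.1 htI.2)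
    have hR' := k1 htI _ hRd'.hasDerivAt
    set R' := deriv R t with hR'def
    have ht0 : 0 < t := hs.trans htI.1
    have htT : t < T := htI.2.trans hb
    obtain ⟨X, hX, hXx⟩ := exists_traj h.sol hs.le htI.1.le htT x
    have hsub : Icc s t ⊆ Ioo 0 T := fun r hr => ⟨hs.trans_le hr.1, hr.2.trans_lt htT⟩
    have htt : t ∈ Icc s t := ⟨htI.1.le, le_rfl⟩
    have d1 := rate_deriv h hX hsub htt e
    rw [hXx] at d1
    set D := -(e ⬝ᵥ (grad (u t) x * grad (u t) x).mulVec e) - hessRate (p t) x e with hD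
    have d2 : HasDerivWithinAt (fun r => σ * rate (u r) (X r) e - R r) (σ * D - R') (Icc s t) t :=
      (d1.const_mul σ).sub hRd'.hasDerivAt.hasDerivWithinAt
    have d3 : HasDerivWithinAt (fun r => Real.exp (-(K * r))) (Real.exp (-(K * t)) * (-K))
        (Icc s t) t := by
      have : HasDerivAt (fun r => -(K * r)) (-K) t := by
        have h9 : HasDerivAt (fun r => K * r) (K * 1) t := (hasDerivAt_id t).const_mul K
        rw [mul_one] at h9
        exact h9.fun_neg
      exact this.exp.hasDerivWithinAt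
    have d4 := d2.mul d3
    set φ : ℝ → ℝ := fun r => (σ * rate (u r) (X r) e - R r) * Real.exp (-(K * r)) with hφ
    have e1 : Em σ u t = σ * rate (u t) x e := Em_eq hσ1 h.sol ⟨ht0.le, htT⟩ hxe
    have eφ : φ t = L t := by
      simp only [hφ, hL]
      rw [hXx, max_eq_left hw.le, e1]
    have leφ : ∀ r ∈ Icc s t, φ r ≤ L r := by
      intro r hr
      simp only [hφ, hL]
      refine mul_le_mul_of_nonneg_right ?_ (Real.exp_pos _).le
      refine le_trans ?_ (le_max_left _ _)
      have := le_Em hσ1 h.sol (t := r) ⟨hs.le.trans hr.1, hr.2.trans_lt htT⟩ (X r) hxe.1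
      linarith
    set Φ' := (σ * D - R') * Real.exp (-(K * t))
      + (σ * rate (u t) (X t) e - R t) * (Real.exp (-(K * t)) * (-K)) with hΦ'
    have d5 : HasDerivWithinAt φ Φ' (Icc s t) t := d4
    have d6 : HasDerivWithinAt L d (Icc s t) t := hd.hasDerivWithinAt
    rw [hasDerivWithinAt_iff_tendsto_slope] at d5 d6
    have hne : (𝓝[Icc s t \ {t}] t).NeBot := by
      have : Icc s t \ {t} = Ico s t := by
        ext r
        simp only [Set.mem_sdiff, mem_Icc, mem_singleton_iff, mem_Ico]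
        constructor
        · rintro ⟨⟨h1, h2⟩, h3⟩
          exact ⟨h1, lt_of_le_of_ne h2 h3⟩
        · rintro ⟨h1, h2⟩
          exact ⟨⟨h1, h2.le⟩, h2.ne⟩
      rw [this]
      exact right_nhdsWithin_Ico_neBot htI.1
    have hle : d ≤ Φ' := by
      refine le_of_tendsto_of_tendsto d6 d5 ?_
      filter_upwards [self_mem_nhdsWithin] with r hr
      have hrt : r < t := lt_of_le_of_ne hr.1.2 hr.2
      rw [slope_def_field, slope_def_field, eφ]
      have hneg : r - t < 0 := by linarith
      rw [div_le_div_right_of_neg hneg]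
      have := leφ r hr.1
      linarith
    refine hle.trans ?_
    -- the sign of the derivative
    have hrate : rate (u t) x e ^ 2 = Em σ u t ^ 2 := by
      rw [e1, mul_pow, hσsq, one_mul]
    have hc' : σ * D ≤ θ * Em σ u t ^ 2 + μ t := by rw [← hrate]; exact hc
    have f1 : σ * D - R' ≤ θ * (Em σ u t + R t) * (Em σ u t - R t) := by nlinarith
    have f2 : Em σ u t + R t ≤ Q := by
      have := hEmle t htI'
      have := hRle t htI'
      linarith
    have f3 : θ * (Em σ u t + R t) * (Em σ u t - R t) ≤ K * (Em σ u t - R t) := by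
      refine mul_le_mul_of_nonneg_right ?_ hw.le
      rw [hK]
      exact mul_le_mul_of_nonneg_left f2 hθ
    have hE := Real.exp_pos (-(K * t))
    have f4 : Φ' = (σ * D - R' - K * (Em σ u t - R t)) * Real.exp (-(K * t)) := by
      rw [hΦ', hXx, e1]
      ring
    rw [f4]
    exact mul_nonpos_of_nonpos_of_nonneg (by linarith) hE.le
  have hfin := growth_of_ae hsb hinc (r := fun _ => 0) intervalIntegrable_const hder
  rw [intervalIntegral.integral_zero] at hfin
  have hLs : L s = 0 := by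
    have h1 : Em σ u s - R s ≤ 0 := by
      have := Em_le h0
      linarith
    simp only [hL]
    rw [max_eq_right h1, zero_mul]
  have hLb : L b ≤ 0 := by linarith
  have hLb2 : max (Em σ u b - R b) 0 ≤ 0 := by
    by_contra hcon
    push Not at hcon
    have : 0 < L b := mul_pos hcon (Real.exp_pos _)
    linarith
  have hfin2 : Em σ u b ≤ R b := by
    have := le_max_left (Em σ u b - R b) 0
    linarith
  intro x e he
  exact (le_Em hσ1 h.sol (t := b) ⟨hs.le.trans hsb, hb⟩ x he).trans hfin2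

end Pool.Agent.TH340.RC
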