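import Pool.Agent.H708R2.EulerTypeI.Defs

/-!
Definitions: extreme rates of strain.
-/

set_option autoImplicit false

open MeasureTheory Set

namespace Pool.Agent.TH340.RC

open Pool.Agent.H708R2.EulerSign Pool.Agent.H708R2.EulerTypeI

/-- The rate `e · (∇v(x)) e = e · S e` at which particles near `x` separate in the direction `e`. -/
noncomputable def rate (v : V → V) (x e : V) : ℝ := e ⬝ᵥ (grad v x).mulVec e

/-- The second derivative `e · (D²p(x)) e` of the pressure in the direction `e`. -/
noncomputable def hessRate (p : V → ℝ) (x e : V) : ℝ := e ⬝ᵥ (hess p x).mulVec e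

/-- `|ω × e|²` for a unit vector `e`: the square of the part of the vorticity which is orthogonal
to `e`. -/
noncomputable def perpSq (v : V → V) (x e : V) : ℝ := vort v x ⬝ᵥ vort v x - (vort v x ⬝ᵥ e) ^ 2

/-- The field `v` has its strongest compression at the point `x` in the direction of the unit
vector `e`. -/
def MostCompressed (v : V → V) (x e : V) : Prop :=
  e ⬝ᵥ e = 1 ∧ ∀ y f : V, f ⬝ᵥ f = 1 → rate v x e ≤ rate v y f

/-- The field `v` has its strongest stretching at the point `x` in the direction of the unit
vector `e`. -/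
def MostStretched (v : V → V) (x e : V) : Prop :=
  e ⬝ᵥ e = 1 ∧ ∀ y f : V, f ⬝ᵥ f = 1 → rate v y f ≤ rate v x e

/-- One-sided condition for the pressure at one point of strongest compression:
`e · (D²p) e ≤ |ω × e|² / 4 + (θ - 1) λ² + μ`, where `-λ` is the least rate of strain. -/
def CondC (θ μ : ℝ) (v : V → V) (p : V → ℝ) : Prop :=
  ∃ x e, MostCompressed v x e ∧
    hessRate p x e ≤ perpSq v x e / 4 + (θ - 1) * rate v x e ^ 2 + μ

/-- One-sided condition for the pressure at one point of strongest stretching:
`|ω × e|² / 4 - e · (D²p) e ≤ (θ + 1) λ² + μ`, where `λ` is the largest rate of strain. -/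
def CondS (θ μ : ℝ) (v : V → V) (p : V → ℝ) : Prop :=
  ∃ x e, MostStretched v x e ∧
    perpSq v x e / 4 - hessRate p x e ≤ (θ + 1) * rate v x e ^ 2 + μ

end Pool.Agent.TH340.RC
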