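import Pool.Agent.TH340.RC.Defs
import Pool.Agent.H708R2.EulerTypeI.Exist
import Pool.Agent.W786.Max1

/-!
Extreme rates of strain: algebra, and the derivative along trajectories.
-/

set_option autoImplicit false

open MeasureTheory Set Filter Topology

namespace Pool.Agent.TH340.RC

open Pool.Agent.H708R2.EulerSign Pool.Agent.H708R2.EulerTypeI

/-- `e` is extreme for `σ` times the rate. -/
def Extreme (σ : ℝ) (v : V → V) (x e : V) : Prop :=
  e ⬝ᵥ e = 1 ∧ ∀ y f : V, f ⬝ᵥ f = 1 → σ * rate v y f ≤ σ * rate v x e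

/-- the form `e · A e` -/
theorem form_eq (A : Matrix (Fin 3) (Fin 3) ℝ) (e : V) :
    e ⬝ᵥ A.mulVec e = ∑ i, ∑ j, e i * e j * A i j := by
  simp only [dotProduct, Matrix.mulVec, Finset.mul_sum]
  refine Finset.sum_congr rfl fun i _ => Finset.sum_congr rfl fun j _ => ?_
  ring

theorem form_smul (A : Matrix (Fin 3) (Fin 3) ℝ) (c : ℝ) (e : V) :
    (c • e) ⬝ᵥ A.mulVec (c • e) = c ^ 2 * (e ⬝ᵥ A.mulVec e) := by
  rw [Matrix.mulVec_smul, smul_dotProduct, dotProduct_smul, smul_eq_mul, smul_eq_mul]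
  ring

/-- homogeneous form of the extremality -/
theorem ext_hom {A : Matrix (Fin 3) (Fin 3) ℝ} {σ l : ℝ}
    (h : ∀ f : V, f ⬝ᵥ f = 1 → σ * (f ⬝ᵥ A.mulVec f) ≤ σ * l) (f : V) :
    σ * (f ⬝ᵥ A.mulVec f) ≤ σ * l * (f ⬝ᵥ f) := by
  by_cases h0 : f = 0
  · subst h0; simp
  have hpos : 0 < nrm f := nrm_pos h0
  have h1 : ((nrm f)⁻¹ • f) ⬝ᵥ ((nrm f)⁻¹ • f) = 1 := by
    rw [smul_dotProduct, dotProduct_smul, smul_eq_mul, smul_eq_mul, ← nrm_sq]
    field_simp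
  have h2 := h _ h1
  rw [form_smul] at h2
  have h3 : f ⬝ᵥ f = nrm f ^ 2 := (nrm_sq f).symm
  have h4 : σ * (f ⬝ᵥ A.mulVec f)
      = nrm f ^ 2 * (σ * ((nrm f)⁻¹ ^ 2 * (f ⬝ᵥ A.mulVec f))) := by
    field_simp
  rw [h4, h3]
  calc nrm f ^ 2 * (σ * ((nrm f)⁻¹ ^ 2 * (f ⬝ᵥ A.mulVec f))) ≤ nrm f ^ 2 * (σ * l) := by gcongr
    _ = _ := by ring

theorem lin_zero {B C : ℝ} (h : ∀ τ : ℝ, 0 ≤ τ * B + τ ^ 2 * C) : B = 0 := by
  rcases le_or_gt C 0 with hC | hC
  · have h1 := h 1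
    have h2 := h (-1)
    nlinarith
  · have h1 := h (-B / (2 * C))
    have h2 : -B / (2 * C) * B + (-B / (2 * C)) ^ 2 * C = -(B ^ 2 / (4 * C)) := by
      field_simp
      ring
    rw [h2] at h1
    have h3 : B ^ 2 / (4 * C) ≤ 0 := by linarith
    have h4 : 0 ≤ B ^ 2 / (4 * C) := by positivity
    have h5 : B ^ 2 / (4 * C) = 0 := le_antisymm h3 h4
    rw [div_eq_zero_iff] at h5
    rcases h5 with h5 | h5
    · exact pow_eq_zero_iff (by norm_num) |>.1 h5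
    · linarith

/-- an extreme direction is an eigenvector of the symmetric part -/
theorem eigen {A : Matrix (Fin 3) (Fin 3) ℝ} {σ : ℝ} (hσ : σ ≠ 0) {e : V}
    (he : e ⬝ᵥ e = 1)
    (h : ∀ f : V, f ⬝ᵥ f = 1 → σ * (f ⬝ᵥ A.mulVec f) ≤ σ * (e ⬝ᵥ A.mulVec e)) :
    A.mulVec e + A.transpose.mulVec e = (2 * (e ⬝ᵥ A.mulVec e)) • e := by
  set l := e ⬝ᵥ A.mulVec e with hl
  have h1 := ext_hom h
  have key : ∀ w : V, w ⬝ᵥ (A.mulVec e + A.transpose.mulVec e - (2 * l) • e) = 0 := by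
    intro w
    have h2 : ∀ τ : ℝ, 0 ≤ τ * (-σ * (w ⬝ᵥ (A.mulVec e + A.transpose.mulVec e - (2 * l) • e)))
        + τ ^ 2 * (σ * (l * (w ⬝ᵥ w) - w ⬝ᵥ A.mulVec w)) := by
      intro τ
      have h3 := h1 (e + τ • w)
      have e1 : (e + τ • w) ⬝ᵥ (e + τ • w) = 1 + 2 * τ * (w ⬝ᵥ e) + τ ^ 2 * (w ⬝ᵥ w) := by
        rw [← he]
        simp only [dotProduct, Fin.sum_univ_three, Pi.add_apply, Pi.smul_apply, smul_eq_mul]
        ring
      have e2 : (e + τ • w) ⬝ᵥ A.mulVec (e + τ • w)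
          = l + τ * (w ⬝ᵥ (A.mulVec e + A.transpose.mulVec e)) + τ ^ 2 * (w ⬝ᵥ A.mulVec w) := by
        rw [hl]
        simp only [dotProduct, Matrix.mulVec, Fin.sum_univ_three, Pi.add_apply, Pi.smul_apply,
          smul_eq_mul, Matrix.transpose_apply]
        ring
      rw [e1, e2] at h3
      have e3 : w ⬝ᵥ (A.mulVec e + A.transpose.mulVec e - (2 * l) • e)
          = w ⬝ᵥ (A.mulVec e + A.transpose.mulVec e) - 2 * l * (w ⬝ᵥ e) := by
        rw [dotProduct_sub, dotProduct_smul, smul_eq_mul]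
      rw [e3]
      nlinarith
    have h4 := lin_zero h2
    have h5 : σ * (w ⬝ᵥ (A.mulVec e + A.transpose.mulVec e - (2 * l) • e)) = 0 := by linarith
    exact (mul_eq_zero.1 h5).resolve_left hσ
  have h3 := key (A.mulVec e + A.transpose.mulVec e - (2 * l) • e)
  have h4 : nrm (A.mulVec e + A.transpose.mulVec e - (2 * l) • e) = 0 := by
    have := nrm_sq (A.mulVec e + A.transpose.mulVec e - (2 * l) • e)
    rw [h3] at this
    exact pow_eq_zero_iff (by norm_num) |>.1 this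
  exact sub_eq_zero.1 (nrm_eq_zero h4)

/-- `|(A - Aᵀ) e|² = |ω × e|²` -/
theorem cross_sq (A : Matrix (Fin 3) (Fin 3) ℝ) (e : V) :
    (A.mulVec e - A.transpose.mulVec e) ⬝ᵥ (A.mulVec e - A.transpose.mulVec e)
      = (cv A ⬝ᵥ cv A) * (e ⬝ᵥ e) - (cv A ⬝ᵥ e) ^ 2 := by
  simp only [cv, dotProduct, Matrix.mulVec, Fin.sum_univ_three, Pi.sub_apply,
    Matrix.transpose_apply, Matrix.cons_val_zero, Matrix.cons_val_one, Matrix.cons_val]
  ring

/-- `e · A² e` in terms of `(A + Aᵀ) e` and `(A - Aᵀ) e` -/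
theorem sq_form (A : Matrix (Fin 3) (Fin 3) ℝ) (e : V) :
    e ⬝ᵥ (A * A).mulVec e
      = (A.mulVec e + A.transpose.mulVec e) ⬝ᵥ (A.mulVec e + A.transpose.mulVec e) / 4
        - (A.mulVec e - A.transpose.mulVec e) ⬝ᵥ (A.mulVec e - A.transpose.mulVec e) / 4 := by
  simp only [dotProduct, Matrix.mulVec, Matrix.mul_apply, Fin.sum_univ_three, Pi.sub_apply,
    Pi.add_apply, Matrix.transpose_apply]
  ring

/-- at an extreme direction -/
theorem ext_sq {σ : ℝ} (hσ : σ ≠ 0) {v : V → V} {x e : V} (h : Extreme σ v x e) :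
    e ⬝ᵥ (grad v x * grad v x).mulVec e = rate v x e ^ 2 - perpSq v x e / 4 := by
  have h1 := eigen hσ h.1 (A := grad v x) (fun f hf => h.2 x f hf)
  rw [sq_form, h1, cross_sq, h.1]
  have h2 : (2 * (e ⬝ᵥ (grad v x).mulVec e)) • e ⬝ᵥ (2 * (e ⬝ᵥ (grad v x).mulVec e)) • e
      = 4 * rate v x e ^ 2 := by
    rw [smul_dotProduct, dotProduct_smul, smul_eq_mul, smul_eq_mul, h.1]
    unfold rate
    ring
  rw [h2]
  unfold perpSq
  rw [vort_eq]
  ring

variable {T : ℝ} {u : ℝ → V → V} {p : ℝ → V → ℝ}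

/-- the derivative of the rate along a trajectory -/
theorem rate_deriv (h : IsC2Solution T u p) {X : ℝ → V} {a b : ℝ} (hX : IsTraj u X a b)
    (hab : Icc a b ⊆ Ioo 0 T) {t : ℝ} (ht : t ∈ Icc a b) (e : V) :
    HasDerivWithinAt (fun t => rate (u t) (X t) e)
      (-(e ⬝ᵥ (grad (u t) (X t) * grad (u t) (X t)).mulVec e) - hessRate (p t) (X t) e)
      (Icc a b) t := by
  have hd := fun i j => grad_deriv h hX hab ht i j
  have h1 : HasDerivWithinAt (fun t => ∑ i, ∑ j, e i * e j * grad (u t) (X t) i j)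
      (∑ i, ∑ j, e i * e j * (-(grad (u t) (X t) * grad (u t) (X t)) i j
        - hess (p t) (X t) i j)) (Icc a b) t :=
    HasDerivWithinAt.fun_sum fun i _ => HasDerivWithinAt.fun_sum fun j _ => (hd i j).const_mul _
  have h2 : (fun t => rate (u t) (X t) e)
      = fun t => ∑ i, ∑ j, e i * e j * grad (u t) (X t) i j := by
    funext t
    exact form_eq _ _
  rw [h2]
  refine h1.congr_deriv ?_
  unfold hessRate
  rw [form_eq, form_eq, ← Finset.sum_neg_distrib, ← Finset.sum_sub_distrib]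
  refine Finset.sum_congr rfl fun i _ => ?_
  rw [← Finset.sum_neg_distrib, ← Finset.sum_sub_distrib]
  refine Finset.sum_congr rfl fun j _ => ?_
  ring

end Pool.Agent.TH340.RC
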