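import Pool.Agent.TH340.RC.Sharp

/-!
Existence of extreme directions, and the conclusions.
-/

set_option autoImplicit false

open MeasureTheory Set Filter
open scoped ENNReal NNReal Topology

namespace Pool.Agent.TH340.RC

open Pool.Agent.H708R2.EulerSign Pool.Agent.H708R2.EulerTypeI

variable {T : ℝ} {u : ℝ → V → V} {p : ℝ → V → ℝ}

theorem sphere_compact : IsCompact {e : V | e ⬝ᵥ e = 1} := by
  refine Metric.isCompact_of_isClosed_isBounded ?_ ?_
  · have : Continuous fun e : V => e ⬝ᵥ e := by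
      simp only [dotProduct]
      fun_prop
    exact isClosed_singleton.preimage this
  · refine (Metric.isBounded_closedBall (x := (0 : V)) (r := 1)).subset fun e he => ?_
    rw [Metric.mem_closedBall, dist_zero_right, pi_norm_le_iff_of_nonneg (by norm_num)]
    intro i
    rw [Real.norm_eq_abs]
    refine abs_le_one_iff_mul_self_le_one.2 ?_
    have he' : e ⬝ᵥ e = 1 := he
    rw [← he']
    exact Finset.single_le_sum (f := fun i => e i * e i) (fun j _ => mul_self_nonneg _)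
      (Finset.mem_univ i)

/-- extreme directions exist -/
theorem exists_extreme (h : IsClassicalSolution (Ico 0 T) u p) {t : ℝ} (ht : t ∈ Ico 0 T)
    (σ : ℝ) : ∃ x e, Extreme σ (u t) x e := by
  have hK : IsCompact (closure Dom ×ˢ {e : V | e ⬝ᵥ e = 1}) :=
    dom_bdd.isCompact_closure.prod sphere_compact
  have hne : (closure Dom ×ˢ {e : V | e ⬝ᵥ e = 1}).Nonempty := by
    obtain ⟨g, hg, -⟩ := dom_exists_unique (0 : V)
    exact ⟨(_, Pi.single 0 1), subset_closure hg, unit_one⟩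
  have hgc : ∀ i j, Continuous fun x => grad (u t) x i j := by
    intro i j
    have h1 := grad_continuousOn h i j
    have h2 : Continuous fun x : V => ((t, x) : ℝ × V) := by fun_prop
    exact h1.comp_continuous h2 fun x => ⟨ht, mem_univ _⟩
  have hc : Continuous fun q : V × V => σ * rate (u t) q.1 q.2 := by
    have h1 : (fun q : V × V => σ * rate (u t) q.1 q.2)
        = fun q : V × V => σ * ∑ i, ∑ j, q.2 i * q.2 j * grad (u t) q.1 i j := by
      funext q
      unfold rate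
      rw [form_eq]
    rw [h1]
    refine continuous_const.mul (continuous_finsetSum _ fun i _ =>
      continuous_finsetSum _ fun j _ => ?_)
    exact (((continuous_apply i).comp continuous_snd).mul
      ((continuous_apply j).comp continuous_snd)).mul ((hgc i j).comp continuous_fst)
  obtain ⟨q, hq, hmax⟩ := hK.exists_isMaxOn hne hc.continuousOn
  refine ⟨q.1, q.2, hq.2, fun y f hf => ?_⟩
  obtain ⟨g, hg, -⟩ := dom_exists_unique y
  have h2 : (g +ᵥ y : V) = y + g := by rw [add_comm]; rfl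
  have h3 : y + (g : V) ∈ closure Dom := by
    rw [← h2]; exact subset_closure hg
  have h4 := hmax (show (y + (g : V), f) ∈ closure Dom ×ˢ {e : V | e ⬝ᵥ e = 1} from ⟨h3, hf⟩)
  simp only [mem_ofPred_eq] at h4
  have h5 : rate (u t) (y + (g : V)) f = rate (u t) y f := by
    unfold rate
    rw [form_eq, form_eq]
    refine Finset.sum_congr rfl fun i _ => Finset.sum_congr rfl fun j _ => ?_
    rw [(grad_periodic h ht i j).lat g.2 y]
  rwa [h5] at h4

/-- at a singular time the compression is at least the threshold at all earlier times -/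
theorem rateC {θ c : ℝ} (hθ : 0 < θ) (hc : 0 ≤ c) (h4 : 4 * θ * c < 1)
    (h : IsC2Solution T u p) {s : ℝ} (hs : s ∈ Ioo 0 T)
    (hcond : ∀ᵐ t, t ∈ Ioo s T → CondC θ (c / (T - t) ^ 2) (u t) (p t))
    (hlt : 1 - Real.sqrt (1 - 4 * θ * c) < θ) (hsing : ¬ BKMFinite T u) :
    ∃ x e, MostCompressed (u s) x e ∧
      rate (u s) x e ≤ -((1 + Real.sqrt (1 - 4 * θ * c)) / (2 * θ * (T - s))) := by
  obtain ⟨x, e, he, hext⟩ := exists_extreme h.sol ⟨hs.1.le, hs.2⟩ (-1)
  have hmc : MostCompressed (u s) x e := ⟨he, fun y f hf => by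
    have := hext y f hf
    linarith⟩
  refine ⟨x, e, hmc, ?_⟩
  by_contra hcon
  push Not at hcon
  exact hsing ((typeC hθ hc h4 h hs hcond (m := -rate (u s) x e) (by linarith)
    (fun y f hf => by
      rw [neg_neg]
      exact hmc.2 y f hf)).2 hlt)

/-- at a singular time the stretching is at least the threshold at all earlier times -/
theorem rateS {θ c : ℝ} (hθ : 0 < θ) (hc : 0 ≤ c) (h4 : 4 * θ * c < 1)
    (h : IsC2Solution T u p) {s : ℝ} (hs : s ∈ Ioo 0 T)
    (hcond : ∀ᵐ t, t ∈ Ioo s T → CondS θ (c / (T - t) ^ 2) (u t) (p t))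
    (hlt : 1 - Real.sqrt (1 - 4 * θ * c) < 2 * θ) (hsing : ¬ BKMFinite T u) :
    ∃ x e, MostStretched (u s) x e ∧
      (1 + Real.sqrt (1 - 4 * θ * c)) / (2 * θ * (T - s)) ≤ rate (u s) x e := by
  obtain ⟨x, e, he, hext⟩ := exists_extreme h.sol ⟨hs.1.le, hs.2⟩ 1
  have hmc : MostStretched (u s) x e := ⟨he, fun y f hf => by
    have := hext y f hf
    linarith⟩
  refine ⟨x, e, hmc, ?_⟩
  by_contra hcon
  push Not at hcon
  exact hsing ((typeS hθ hc h4 h hs hcond hcon (fun y f hf => hmc.2 y f hf)).2 hlt)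

theorem alg {θ c : ℝ} (hθ : 0 < θ) (h4 : 4 * θ * c < 1) :
    (1 + Real.sqrt (1 - 4 * θ * c)) / (2 * θ)
      - θ * ((1 + Real.sqrt (1 - 4 * θ * c)) / (2 * θ)) ^ 2 = c := by
  have h1 : 0 < 1 - 4 * θ * c := by linarith
  have h3 := Real.sq_sqrt h1.le
  set δ := Real.sqrt (1 - 4 * θ * c)
  field_simp
  nlinarith

/-- sharpness, compression -/
theorem sharpC {θ c : ℝ} (hT : 0 < T) (hθ : 0 < θ) (h4 : 4 * θ * c < 1)
    (hle : θ ≤ 1 + Real.sqrt (1 - 4 * θ * c)) :
    ∃ (u : ℝ → V → V) (p : ℝ → V → ℝ), IsSpaceSolution T u p ∧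
      (∀ t, ∃ A : Matrix (Fin 3) (Fin 3) ℝ, ∀ x, u t x = A.mulVec x) ∧
      (∀ t ∈ Ico 0 T, CondC θ (c / (T - t) ^ 2) (u t) (p t)) ∧
      (∀ t ∈ Ico 0 T, ∀ x e, e ⬝ᵥ e = 1 →
        -((1 + Real.sqrt (1 - 4 * θ * c)) / (2 * θ * (T - t))) ≤ rate (u t) x e) ∧
      ¬ BKMFinite T u := by
  set δ := Real.sqrt (1 - 4 * θ * c) with hδ
  have hδ0 : 0 ≤ δ := Real.sqrt_nonneg _
  set α := (1 + δ) / θ with hα
  have hα0 : 0 ≤ α := by positivity
  have hα1 : 1 ≤ α := by rw [hα, le_div_iff₀ hθ]; linarith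
  have hα2 : α / 2 = (1 + δ) / (2 * θ) := by rw [hα]; field_simp
  refine ⟨ug α T, pg α T, ug_solution α T, fun t => ⟨Ag α T t, fun x => congrFun (ug_eq α T t) x⟩,
    fun t ht => condC_ug hα0 ht.2 ?_, fun t ht x e he => ?_, ug_not_bkm hα1 hT⟩
  · rw [hα2, alg hθ h4]
  · have h1 := (comp_ug (α := α) hα0 ht.2 0).2 x e he
    have e3 : rate (ug α T t) 0 (Pi.single 0 1) = -(ag α T t / 2) := by
      rw [rate_ug]
      simp
    rw [e3] at h1
    refine le_trans (le_of_eq ?_) h1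
    have hy : 0 < T - t := by linarith [ht.2]
    unfold ag
    rw [hα]
    field_simp

/-- sharpness, stretching -/
theorem sharpS {θ c : ℝ} (hT : 0 < T) (hθ : 0 < θ) (h4 : 4 * θ * c < 1)
    (hle : 2 * θ ≤ 1 + Real.sqrt (1 - 4 * θ * c)) :
    ∃ (u : ℝ → V → V) (p : ℝ → V → ℝ), IsSpaceSolution T u p ∧
      (∀ t, ∃ A : Matrix (Fin 3) (Fin 3) ℝ, ∀ x, u t x = A.mulVec x) ∧
      (∀ t ∈ Ico 0 T, CondS θ (c / (T - t) ^ 2) (u t) (p t)) ∧
      (∀ t ∈ Ico 0 T, ∀ x e, e ⬝ᵥ e = 1 →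
        rate (u t) x e ≤ (1 + Real.sqrt (1 - 4 * θ * c)) / (2 * θ * (T - t))) ∧
      ¬ BKMFinite T u := by
  set δ := Real.sqrt (1 - 4 * θ * c) with hδ
  have hδ0 : 0 ≤ δ := Real.sqrt_nonneg _
  set α := (1 + δ) / (2 * θ) with hα
  have hα0 : 0 ≤ α := by positivity
  have hα1 : 1 ≤ α := by rw [hα, le_div_iff₀ (by positivity)]; linarith
  refine ⟨ug α T, pg α T, ug_solution α T, fun t => ⟨Ag α T t, fun x => congrFun (ug_eq α T t) x⟩,
    fun t ht => condS_ug hα0 ht.2 ?_, fun t ht x e he => ?_, ug_not_bkm hα1 hT⟩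
  · rw [hα, alg hθ h4]
  · have h1 := (stretch_ug (α := α) hα0 ht.2 0).2 x e he
    have e3 : rate (ug α T t) 0 (Pi.single 2 1) = ag α T t := by
      rw [rate_ug]
      simp
    rw [e3] at h1
    refine h1.trans (le_of_eq ?_)
    have hy : 0 < T - t := by linarith [ht.2]
    unfold ag
    rw [hα]
    field_simp

end Pool.Agent.TH340.RC
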