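import Pool.Agent.TH340.RC.Type1
import Pool.Agent.H708R2.EulerTypeI.Sharp

/-!
# Sharpness of the thresholds: linear flows
-/

set_option autoImplicit false

open MeasureTheory Set Filter
open scoped ENNReal NNReal Topology

namespace Pool.Agent.TH340.RC

open Pool.Agent.H708R2.EulerSign Pool.Agent.H708R2.EulerTypeI

/-- The vorticity of the linear flow. -/
noncomputable def yg (α T t : ℝ) : ℝ := (T - t) ^ (-α)

/-- The stretching rate of the linear flow. -/
noncomputable def ag (α T t : ℝ) : ℝ := α * (T - t)⁻¹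

/-- The derivative of the stretching rate. -/
noncomputable def bg (α T t : ℝ) : ℝ := α * ((T - t)⁻¹) ^ 2

/-- The linear flow. -/
noncomputable def ug (α T t : ℝ) (x : V) : V :=
  ![-(ag α T t / 2) * x 0 - yg α T t / 2 * x 1, yg α T t / 2 * x 0 - ag α T t / 2 * x 1,
    ag α T t * x 2]

/-- The coefficient of `x₀² + x₁²` in twice the pressure. -/
noncomputable def hg (α T t : ℝ) : ℝ := bg α T t / 2 - ag α T t ^ 2 / 4 + yg α T t ^ 2 / 4

/-- The pressure of the linear flow. -/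
noncomputable def pg (α T t : ℝ) (x : V) : ℝ :=
  (hg α T t * (x 0 ^ 2 + x 1 ^ 2) - (bg α T t + ag α T t ^ 2) * x 2 ^ 2) / 2

variable {α T : ℝ}

lemma yg_hasDerivAt {t : ℝ} (ht : t ∈ Ico 0 T) :
    HasDerivAt (yg α T) (ag α T t * yg α T t) t := by
  have h3 : HasDerivAt (fun t => T - t) (-1) t := by
    simpa using (hasDerivAt_id t).const_sub T
  have hs : 0 < T - t := sub_pos.2 ht.2
  refine (h3.rpow_const (p := -α) (Or.inl hs.ne')).congr_deriv ?_
  unfold ag yg
  rw [Real.rpow_sub_one hs.ne']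
  field_simp

lemma ag_hasDerivAt {t : ℝ} (ht : t ∈ Ico 0 T) : HasDerivAt (ag α T) (bg α T t) t := by
  have h3 : HasDerivAt (fun t => T - t) (-1) t := by
    simpa using (hasDerivAt_id t).const_sub T
  have hs : 0 < T - t := sub_pos.2 ht.2
  refine ((h3.fun_inv hs.ne').const_mul α).congr_deriv ?_
  unfold bg
  field_simp
  try ring

/-- The velocity gradient of the linear flow. -/
noncomputable def Ag (α T t : ℝ) : Matrix (Fin 3) (Fin 3) ℝ :=
  !![-(ag α T t / 2), -(yg α T t / 2), 0; yg α T t / 2, -(ag α T t / 2), 0; 0, 0, ag α T t]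

lemma ug_eq (α T t : ℝ) : ug α T t = (Ag α T t).mulVec := by
  ext x i
  fin_cases i <;> simp [ug, Ag, Matrix.mulVec, dotProduct, Fin.sum_univ_three] <;> ring

lemma ug_fderiv (α T t : ℝ) (x : V) :
    HasFDerivAt (ug α T t) (Matrix.mulVecLin (Ag α T t)).toContinuousLinearMap x := by
  rw [ug_eq]
  exact (Matrix.mulVecLin (Ag α T t)).toContinuousLinearMap.hasFDerivAt

lemma ug_fderiv_apply (α T t : ℝ) (x : V) (i j : Fin 3) :
    fderiv ℝ (ug α T t) x (Pi.single j 1) i = Ag α T t i j := by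
  rw [(ug_fderiv α T t x).fderiv]
  simp

lemma ug_grad (α T t : ℝ) (x : V) : grad (ug α T t) x = Ag α T t := by
  ext i j
  exact ug_fderiv_apply α T t x i j

lemma ug_vort (α T t : ℝ) (x : V) : vort (ug α T t) x = ![0, 0, yg α T t] := by
  unfold vort
  rw [ug_grad]
  ext i
  fin_cases i <;> simp [Ag]

/-- The eigenvalues of the pressure Hessian of the linear flow. -/
noncomputable def dg (α T t : ℝ) : V := ![hg α T t, hg α T t, -(bg α T t + ag α T t ^ 2)]

lemma pg_fderiv (α T t : ℝ) (x : V) (i : Fin 3) :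
    fderiv ℝ (pg α T t) x (Pi.single i 1) = dg α T t i * x i := by
  have h0 : ∀ i : Fin 3, HasFDerivAt (fun x : V => x i) (ContinuousLinearMap.proj i : V →L[ℝ] ℝ) x :=
    fun i => (ContinuousLinearMap.proj i : V →L[ℝ] ℝ).hasFDerivAt
  have h1 : HasFDerivAt (pg α T t) _ x :=
    (((((h0 0).pow 2).add ((h0 1).pow 2)).const_mul (hg α T t)).sub
      (((h0 2).pow 2).const_mul (bg α T t + ag α T t ^ 2))).mul_const (1 / 2) |>.congr_of_eventuallyEq
      (Eventually.of_forall fun y => by simp [pg]; ring)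
  rw [h1.fderiv]
  fin_cases i <;> simp [dg] <;> ring

lemma pg_hess (α T t : ℝ) (x : V) : hess (pg α T t) x = Matrix.diagonal (dg α T t) := by
  ext i j
  show fderiv ℝ (fun y => fderiv ℝ (pg α T t) y (Pi.single i 1)) x (Pi.single j 1) = _
  have h0 : (fun y => fderiv ℝ (pg α T t) y (Pi.single i 1)) = fun y => dg α T t i * y i := by
    funext y; exact pg_fderiv α T t y i
  have h1 : HasFDerivAt (fun y : V => dg α T t i * y i)
      (dg α T t i • (ContinuousLinearMap.proj i : V →L[ℝ] ℝ)) x :=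
    ((ContinuousLinearMap.proj i : V →L[ℝ] ℝ).hasFDerivAt (x := x)).const_mul (dg α T t i)
  rw [h0, h1.fderiv]
  by_cases hij : i = j
  · subst hij; simp
  · simp [Matrix.diagonal_apply_ne _ hij, Pi.single_eq_of_ne hij]

lemma cd_inv : ContDiffOn ℝ (⊤ : ℕ∞) (fun z : ℝ × V => (T - z.1)⁻¹) (Ico 0 T ×ˢ univ) := by
  have h1 : ContDiffOn ℝ (⊤ : ℕ∞) (fun z : ℝ × V => T - z.1) (Ico 0 T ×ˢ univ) := by fun_prop
  exact h1.inv (fun z hz => (sub_pos.2 hz.1.2).ne')

lemma cd_ag : ContDiffOn ℝ (⊤ : ℕ∞) (fun z : ℝ × V => ag α T z.1) (Ico 0 T ×ˢ univ) :=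
  contDiffOn_const.mul cd_inv

lemma cd_bg : ContDiffOn ℝ (⊤ : ℕ∞) (fun z : ℝ × V => bg α T z.1) (Ico 0 T ×ˢ univ) :=
  contDiffOn_const.mul (cd_inv.pow 2)

lemma cd_yg : ContDiffOn ℝ (⊤ : ℕ∞) (fun z : ℝ × V => yg α T z.1) (Ico 0 T ×ˢ univ) := by
  have h1 : ContDiffOn ℝ (⊤ : ℕ∞) (fun z : ℝ × V => T - z.1) (Ico 0 T ×ˢ univ) := by fun_prop
  exact h1.rpow_const_of_ne (fun z hz => (sub_pos.2 hz.1.2).ne')

lemma cd_hg : ContDiffOn ℝ (⊤ : ℕ∞) (fun z : ℝ × V => hg α T z.1) (Ico 0 T ×ˢ univ) := by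
  unfold hg
  exact ((cd_bg.div_const 2).sub ((cd_ag.pow 2).div_const 4)).add ((cd_yg.pow 2).div_const 4)

/-- The linear flow solves the Euler equations. -/
theorem ug_solution (α T : ℝ) : IsSpaceSolution T (ug α T) (pg α T) := by
  have c : ∀ i : Fin 3, ContDiffOn ℝ (⊤ : ℕ∞) (fun z : ℝ × V => z.2 i) (Ico 0 T ×ˢ univ) :=
    fun i => (contDiff_coord i).contDiffOn
  refine ⟨?_, ?_, ?_, ?_⟩
  · rw [contDiffOn_pi]
    intro i
    fin_cases i
    · exact ((cd_ag.div_const 2).neg.mul (c 0)).sub ((cd_yg.div_const 2).mul (c 1))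
    · exact ((cd_yg.div_const 2).mul (c 0)).sub ((cd_ag.div_const 2).mul (c 1))
    · exact cd_ag.mul (c 2)
  · unfold pg
    exact ((cd_hg.mul (((c 0).pow 2).add ((c 1).pow 2))).sub
      ((cd_bg.add (cd_ag.pow 2)).mul ((c 2).pow 2))).div_const 2
  · intro t _ x
    unfold divergence
    rw [ug_grad]
    simp [Matrix.trace, Fin.sum_univ_three, Ag]
    ring
  · intro t ht x i
    simp only [ug_fderiv_apply, pg_fderiv]
    have hu : UniqueDiffWithinAt ℝ (Ico 0 T) t := uniqueDiffOn_Ico 0 T t ht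
    have ha := (ag_hasDerivAt (α := α) ht).hasDerivWithinAt (s := Ico 0 T)
    have hy := (yg_hasDerivAt (α := α) ht).hasDerivWithinAt (s := Ico 0 T)
    fin_cases i
    · have h1 : HasDerivWithinAt (fun s => ug α T s x 0) _ (Ico 0 T) t :=
        ((ha.div_const 2).neg.mul_const (x 0)).sub ((hy.div_const 2).mul_const (x 1))
      simp only [Fin.zero_eta, Fin.isValue]
      rw [h1.derivWithin hu]
      simp [Fin.sum_univ_three, ug, Ag, dg, hg]
      ring
    · have h1 : HasDerivWithinAt (fun s => ug α T s x 1) _ (Ico 0 T) t :=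
        ((hy.div_const 2).mul_const (x 0)).sub ((ha.div_const 2).mul_const (x 1))
      simp only [Fin.mk_one, Fin.isValue]
      rw [h1.derivWithin hu]
      simp [Fin.sum_univ_three, ug, Ag, dg, hg]
      ring
    · have h1 : HasDerivWithinAt (fun s => ug α T s x 2) _ (Ico 0 T) t := ha.mul_const (x 2)
      simp only [Fin.reduceFinMk, Fin.isValue]
      rw [h1.derivWithin hu]
      simp [Fin.sum_univ_three, ug, Ag, dg]
      ring

lemma rate_ug (α T t : ℝ) (x e : V) :
    rate (ug α T t) x e = -(ag α T t / 2) * (e 0 ^ 2 + e 1 ^ 2) + ag α T t * e 2 ^ 2 := by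
  unfold rate
  rw [ug_grad]
  simp only [Ag, dotProduct, Matrix.mulVec, Fin.sum_univ_three, Matrix.of_apply,
    Matrix.cons_val', Matrix.cons_val_zero, Matrix.cons_val_one, Matrix.cons_val]
  ring

lemma unit_sq {e : V} (he : e ⬝ᵥ e = 1) : e 0 ^ 2 + e 1 ^ 2 + e 2 ^ 2 = 1 := by
  rw [← he]
  simp [dotProduct, Fin.sum_univ_three, sq]

lemma ag_nonneg (hα : 0 ≤ α) {t : ℝ} (ht : t < T) : 0 ≤ ag α T t := by
  have : 0 < T - t := by linarith
  unfold ag
  positivity

lemma comp_ug (hα : 0 ≤ α) {t : ℝ} (ht : t < T) (x : V) :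
    MostCompressed (ug α T t) x (Pi.single 0 1) := by
  refine ⟨by simp, fun y f hf => ?_⟩
  rw [rate_ug, rate_ug]
  have h1 := unit_sq hf
  have h2 := ag_nonneg (α := α) hα ht
  have h3 := sq_nonneg (f 2)
  simp
  nlinarith

lemma stretch_ug (hα : 0 ≤ α) {t : ℝ} (ht : t < T) (x : V) :
    MostStretched (ug α T t) x (Pi.single 2 1) := by
  refine ⟨by simp, fun y f hf => ?_⟩
  rw [rate_ug, rate_ug]
  have h1 := unit_sq hf
  have h2 := ag_nonneg (α := α) hα ht
  have h3 := sq_nonneg (f 2)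
  simp
  nlinarith

lemma condC_ug (hα : 0 ≤ α) {t : ℝ} (ht : t < T) {θ c : ℝ}
    (h : α / 2 - θ * (α / 2) ^ 2 ≤ c) :
    CondC θ (c / (T - t) ^ 2) (ug α T t) (pg α T t) := by
  refine ⟨0, Pi.single 0 1, comp_ug hα ht 0, ?_⟩
  have hy : 0 < T - t := by linarith
  have e1 : hessRate (pg α T t) 0 (Pi.single 0 1) = hg α T t := by
    unfold hessRate
    rw [pg_hess]
    simp [dg]
  have e2 : perpSq (ug α T t) 0 (Pi.single 0 1) = yg α T t ^ 2 := by
    unfold perpSq
    rw [ug_vort]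
    simp [dotProduct, Fin.sum_univ_three, sq]
  have e3 : rate (ug α T t) 0 (Pi.single 0 1) = -(ag α T t / 2) := by
    rw [rate_ug]
    simp
  rw [e1, e2, e3]
  unfold hg bg ag
  have h4 : (α / 2 - θ * (α / 2) ^ 2) / (T - t) ^ 2 ≤ c / (T - t) ^ 2 := by gcongr
  have h5 : (α / 2 - θ * (α / 2) ^ 2) / (T - t) ^ 2
      = α * (T - t)⁻¹ ^ 2 / 2 - θ * (α * (T - t)⁻¹ / 2) ^ 2 := by
    field_simp
  rw [h5] at h4
  linarith

lemma condS_ug (hα : 0 ≤ α) {t : ℝ} (ht : t < T) {θ c : ℝ} (h : α - θ * α ^ 2 ≤ c) :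
    CondS θ (c / (T - t) ^ 2) (ug α T t) (pg α T t) := by
  refine ⟨0, Pi.single 2 1, stretch_ug hα ht 0, ?_⟩
  have hy : 0 < T - t := by linarith
  have e1 : hessRate (pg α T t) 0 (Pi.single 2 1) = -(bg α T t + ag α T t ^ 2) := by
    unfold hessRate
    rw [pg_hess]
    simp [dg]
  have e2 : perpSq (ug α T t) 0 (Pi.single 2 1) = 0 := by
    unfold perpSq
    rw [ug_vort]
    simp [dotProduct, Fin.sum_univ_three, sq]
  have e3 : rate (ug α T t) 0 (Pi.single 2 1) = ag α T t := by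
    rw [rate_ug]
    simp
  rw [e1, e2, e3]
  unfold bg ag
  have h4 : (α - θ * α ^ 2) / (T - t) ^ 2 ≤ c / (T - t) ^ 2 := by gcongr
  have h5 : (α - θ * α ^ 2) / (T - t) ^ 2
      = α * (T - t)⁻¹ ^ 2 - θ * (α * (T - t)⁻¹) ^ 2 := by
    field_simp
  rw [h5] at h4
  linarith

/-- The Beale-Kato-Majda integral of the linear flow diverges for `α ≥ 1`. -/
theorem ug_not_bkm (hα : 1 ≤ α) (hT : 0 < T) : ¬ BKMFinite T (ug α T) := by
  intro hfin
  unfold BKMFinite at hfin
  set I := ∫⁻ t in Ioo 0 T, ⨆ x, ENNReal.ofReal (nrm (vort (ug α T t) x)) with hI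
  have hypos : ∀ t ∈ Ico 0 T, 0 < yg α T t := fun t ht =>
    Real.rpow_pos_of_pos (sub_pos.2 ht.2) _
  have hlow : ∀ t ∈ Ico 0 T, T ^ (1 - α) * (T - t)⁻¹ ≤ yg α T t := by
    intro t ht
    have hy : 0 < T - t := sub_pos.2 ht.2
    have h1 : yg α T t = (T - t) ^ (1 - α) * (T - t)⁻¹ := by
      unfold yg
      rw [← Real.rpow_neg_one, ← Real.rpow_add hy]
      congr 1
      ring
    rw [h1]
    have h2 : T ^ (1 - α) ≤ (T - t) ^ (1 - α) :=
      Real.rpow_le_rpow_of_nonpos hy (by linarith [ht.1]) (by linarith)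
    gcongr
  have key : ∀ b ∈ Ico 0 T, T ^ (1 - α) * (Real.log T - Real.log (T - b)) ≤ I.toReal := by
    intro b hb
    have hc : ContinuousOn (yg α T) (Icc 0 b) := fun t ht =>
      (yg_hasDerivAt ⟨ht.1, ht.2.trans_lt hb.2⟩).continuousAt.continuousWithinAt
    have hc2 : ContinuousOn (fun t => T ^ (1 - α) * (T - t)⁻¹) (Icc 0 b) := by
      refine continuousOn_const.mul (ContinuousOn.inv₀ (by fun_prop) fun t ht => ?_)
      exact (sub_pos.2 (ht.2.trans_lt hb.2)).ne'
    have h1 : ∫ t in (0 : ℝ)..b, T ^ (1 - α) * (T - t)⁻¹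
        = T ^ (1 - α) * (Real.log T - Real.log (T - b)) := by
      have h2 : ∫ t in (0 : ℝ)..b, T ^ (1 - α) * (T - t)⁻¹
          = -(T ^ (1 - α) * Real.log (T - b)) - -(T ^ (1 - α) * Real.log (T - 0)) := by
        refine intervalIntegral.integral_eq_sub_of_hasDerivAt
          (f := fun t => -(T ^ (1 - α) * Real.log (T - t))) ?_ ?_
        · intro t ht
          rw [uIcc_of_le hb.1] at ht
          have hs : 0 < T - t := sub_pos.2 (ht.2.trans_lt hb.2)
          have h3 : HasDerivAt (fun t => T - t) (-1) t := by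
            simpa using (hasDerivAt_id t).const_sub T
          refine ((h3.log hs.ne').const_mul (T ^ (1 - α))).fun_neg.congr_deriv ?_
          field_simp
        · exact (hc2.mono (by rw [uIcc_of_le hb.1])).intervalIntegrable
      rw [h2, sub_zero]
      ring
    have hle : ∫ t in (0 : ℝ)..b, T ^ (1 - α) * (T - t)⁻¹ ≤ ∫ t in (0 : ℝ)..b, yg α T t := by
      refine intervalIntegral.integral_mono_on hb.1
        (hc2.mono (by rw [uIcc_of_le hb.1])).intervalIntegrable
        (hc.mono (by rw [uIcc_of_le hb.1])).intervalIntegrable ?_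
      intro t ht
      exact hlow t ⟨ht.1, ht.2.trans_lt hb.2⟩
    have h2 : ENNReal.ofReal (∫ t in (0 : ℝ)..b, yg α T t) ≤ I := by
      rw [intervalIntegral.integral_of_le hb.1, ofReal_integral_eq_lintegral_ofReal]
      · rw [← restrict_Ioo_eq_restrict_Ioc]
        refine (setLIntegral_mono' measurableSet_Ioo fun t ht => ?_).trans
          (lintegral_mono_set (Ioo_subset_Ioo_right hb.2.le))
        refine le_iSup_of_le 0 ?_
        rw [ug_vort, nrm_e2]
        exact ENNReal.ofReal_le_ofReal (le_abs_self _)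
      · exact (hc.integrableOn_Icc).mono_set Ioc_subset_Icc_self
      · refine (ae_restrict_iff' measurableSet_Ioc).2 (Eventually.of_forall fun t ht => ?_)
        exact (hypos t ⟨ht.1.le, ht.2.trans_lt hb.2⟩).le
    rw [← h1]
    exact hle.trans ((ENNReal.ofReal_le_iff_le_toReal hfin.ne).1 h2)
  -- a time at which the logarithm is large
  have hTp : 0 < T ^ (1 - α) := Real.rpow_pos_of_pos hT _
  set J := I.toReal with hJ
  have hJ0 : 0 ≤ J := ENNReal.toReal_nonneg
  set E := T * Real.exp (-((J + 1) / T ^ (1 - α))) with hE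
  have hE0 : 0 < E := by positivity
  have hET : E ≤ T := by
    have : Real.exp (-((J + 1) / T ^ (1 - α))) ≤ 1 := Real.exp_le_one_iff.2 (by
      have : 0 ≤ (J + 1) / T ^ (1 - α) := by positivity
      linarith)
    calc E ≤ T * 1 := by rw [hE]; gcongr
      _ = T := mul_one T
  have h5 := key (T - E) ⟨by linarith, by linarith⟩
  rw [sub_sub_cancel, hE, Real.log_mul hT.ne' (Real.exp_pos _).ne', Real.log_exp] at h5
  have h6 : T ^ (1 - α) * (Real.log T - (Real.log T + -((J + 1) / T ^ (1 - α)))) = J + 1 := by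
    field_simp
    ring
  rw [h6] at h5
  linarith

end Pool.Agent.TH340.RC
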