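import Pool.Agent.TH340.RC.Vort

/-!
Explicit solutions of the Riccati equation `R' = θ R² + c / (T - t)²`.
-/

set_option autoImplicit false

open MeasureTheory Set Filter Topology
open scoped ENNReal

namespace Pool.Agent.TH340.RC

open Pool.Agent.H708R2.EulerSign Pool.Agent.H708R2.EulerTypeI

/-- the solution with parameters `a` (the smaller exponent), `K` -/
noncomputable def Rs (T θ a K t : ℝ) : ℝ :=
  (a + (1 - a) * (K * (T - t) ^ (1 - 2 * a))) / (θ * (T - t) * (1 + K * (T - t) ^ (1 - 2 * a)))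

/-- its primitive, times `-θ` -/
noncomputable def Zs (T a K t : ℝ) : ℝ :=
  a * Real.log (T - t) + Real.log (1 + K * (T - t) ^ (1 - 2 * a))

section

variable {T θ a K t : ℝ}

theorem pw_deriv (ht : t < T) (δ : ℝ) :
    HasDerivAt (fun t => K * (T - t) ^ δ) (-(δ * (K * (T - t) ^ δ) / (T - t))) t := by
  have hy : 0 < T - t := by linarith
  have h1 : HasDerivAt (fun t => T - t) (-1) t := by
    simpa using (hasDerivAt_id t).const_sub T
  have h2 := (h1.rpow_const (p := δ) (Or.inl hy.ne')).const_mul K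
  refine h2.congr_deriv ?_
  rw [Real.rpow_sub_one hy.ne']
  field_simp

theorem Rs_deriv (hθ : 0 < θ) (hK : 0 ≤ K) (ht : t < T) :
    HasDerivAt (Rs T θ a K) (θ * Rs T θ a K t ^ 2 + a * (1 - a) / θ / (T - t) ^ 2) t := by
  have hy : 0 < T - t := by linarith
  set δ := 1 - 2 * a with hδ
  have hg := pw_deriv (K := K) ht δ
  have hg0 : 0 ≤ K * (T - t) ^ δ := mul_nonneg hK (Real.rpow_nonneg hy.le _)
  have h1 : HasDerivAt (fun t => T - t) (-1) t := by
    simpa using (hasDerivAt_id t).const_sub T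
  have hN := (hg.const_mul (1 - a)).const_add a
  have hD := (h1.const_mul θ).mul (hg.const_add 1)
  have hD0 : θ * (T - t) * (1 + K * (T - t) ^ δ) ≠ 0 := by positivity
  have h2 := hN.div hD hD0
  have h3 : HasDerivAt (Rs T θ a K) _ t := h2
  refine h3.congr_deriv ?_
  unfold Rs
  rw [← hδ]
  simp only [Pi.mul_apply]
  set h := K * (T - t) ^ δ with hh
  set y := T - t with hyd
  have h1h : (1 + h) ≠ 0 := by positivity
  rw [hδ]
  field_simp
  ring

theorem Zs_deriv (hθ : 0 < θ) (hK : 0 ≤ K) (ht : t < T) :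
    HasDerivAt (fun t => -(Zs T a K t) / θ) (Rs T θ a K t) t := by
  have hy : 0 < T - t := by linarith
  set δ := 1 - 2 * a with hδ
  have hg := pw_deriv (K := K) ht δ
  have hg0 : 0 ≤ K * (T - t) ^ δ := mul_nonneg hK (Real.rpow_nonneg hy.le _)
  have h1 : HasDerivAt (fun t => T - t) (-1) t := by
    simpa using (hasDerivAt_id t).const_sub T
  have h2 := ((h1.log hy.ne').const_mul a).add ((hg.const_add 1).log (by positivity))
  have h3 := h2.neg.div_const θ
  have h4 : HasDerivAt (fun t => -(Zs T a K t) / θ) _ t := h3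
  refine h4.congr_deriv ?_
  unfold Rs
  rw [← hδ]
  set h := K * (T - t) ^ δ with hh
  set y := T - t with hyd
  have h1h : (1 + h) ≠ 0 := by positivity
  rw [hδ]
  field_simp
  ring

theorem Rs_nonneg (hθ : 0 < θ) (hK : 0 ≤ K) (ha : 0 ≤ a) (ha1 : a ≤ 1) (ht : t < T) :
    0 ≤ Rs T θ a K t := by
  have hy : 0 < T - t := by linarith
  have hg0 : 0 ≤ K * (T - t) ^ (1 - 2 * a) := mul_nonneg hK (Real.rpow_nonneg hy.le _)
  have h1 : 0 ≤ 1 - a := by linarith
  unfold Rs
  positivity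

theorem Rs_mono (hθ : 0 < θ) (hK : 0 ≤ K) (ha : 0 ≤ a) (ha1 : a ≤ 1) (s : ℝ) :
    MonotoneOn (Rs T θ a K) (Ico s T) := by
  refine monotoneOn_of_deriv_nonneg (convex_Ico s T) ?_ ?_ ?_
  · exact fun t ht => (Rs_deriv hθ hK ht.2).continuousAt.continuousWithinAt
  · intro t ht
    rw [interior_Ico] at ht
    exact (Rs_deriv hθ hK ht.2).differentiableAt.differentiableWithinAt
  · intro t ht
    rw [interior_Ico] at ht
    rw [(Rs_deriv hθ hK ht.2).deriv]
    have h1 : 0 ≤ 1 - a := by linarith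
    have hy : 0 < T - t := by linarith [ht.2]
    positivity

/-- the initial value can be anything below the threshold -/
theorem exists_K (hθ : 0 < θ) (_ha : a < 1 / 2) {s m : ℝ} (hs : s < T)
    (hm : m < (1 - a) / (θ * (T - s))) : ∃ K : ℝ, 0 ≤ K ∧ m ≤ Rs T θ a K s := by
  have hy : 0 < T - s := by linarith
  set g := (T - s) ^ (1 - 2 * a) with hg
  have hg0 : 0 < g := Real.rpow_pos_of_pos hy _
  set q := m * (θ * (T - s)) with hq
  have hq1 : q < 1 - a := by
    rw [lt_div_iff₀ (by positivity)] at hm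
    exact hm
  set K := |q - a| / (1 - a - q) / g with hK
  have hp : 0 < 1 - a - q := by linarith
  have hK0 : 0 ≤ K := by positivity
  refine ⟨K, hK0, ?_⟩
  have hKg : K * g = |q - a| / (1 - a - q) := by rw [hK]; field_simp
  unfold Rs
  rw [← hg, hKg, le_div_iff₀ (by positivity)]
  have e1 : m * (θ * (T - s) * (1 + |q - a| / (1 - a - q)))
      = q * (1 + |q - a| / (1 - a - q)) := by rw [hq]; ring
  rw [e1]
  have h2 : q * (1 + |q - a| / (1 - a - q)) = q + q * (|q - a| / (1 - a - q)) := by ring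
  have h3 : (1 - a) * (|q - a| / (1 - a - q)) - q * (|q - a| / (1 - a - q)) = |q - a| := by
    field_simp
  have h4 := le_abs_self (q - a)
  rw [h2]
  linarith

/-- the exponential of the integral -/
theorem exp_int (hθ : 0 < θ) (hK : 0 ≤ K) {k s : ℝ} (hk : 0 ≤ k) (hst : s ≤ t) (ht : t < T) :
    Real.exp (k * ∫ r in s..t, Rs T θ a K r)
      ≤ Real.exp (k * Zs T a K s / θ) * (T - t) ^ (-(k * a / θ)) := by
  have hy : 0 < T - t := by linarith
  have hcont : ContinuousOn (Rs T θ a K) (uIcc s t) := by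
    rw [uIcc_of_le hst]
    exact fun r hr => (Rs_deriv hθ hK (hr.2.trans_lt ht)).continuousAt.continuousWithinAt
  have h1 : ∫ r in s..t, Rs T θ a K r = -(Zs T a K t) / θ - -(Zs T a K s) / θ := by
    refine intervalIntegral.integral_eq_sub_of_hasDerivAt (f := fun t => -(Zs T a K t) / θ)
      (fun r hr => ?_) hcont.intervalIntegrable
    rw [uIcc_of_le hst] at hr
    exact Zs_deriv hθ hK (hr.2.trans_lt ht)
  have h2 : a * Real.log (T - t) ≤ Zs T a K t := by
    unfold Zs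
    have hg0 : 0 ≤ K * (T - t) ^ (1 - 2 * a) := mul_nonneg hK (Real.rpow_nonneg hy.le _)
    have := Real.log_nonneg (show 1 ≤ 1 + K * (T - t) ^ (1 - 2 * a) by linarith)
    linarith
  rw [h1, Real.rpow_def_of_pos hy, ← Real.exp_add]
  refine Real.exp_le_exp.2 ?_
  have e1 : k * (-(Zs T a K t) / θ - -(Zs T a K s) / θ)
      = k * Zs T a K s / θ - k / θ * Zs T a K t := by ring
  have e2 : Real.log (T - t) * -(k * a / θ) = -(k / θ * (a * Real.log (T - t))) := by ring
  rw [e1, e2]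
  have h3 : k / θ * (a * Real.log (T - t)) ≤ k / θ * Zs T a K t := by gcongr
  linarith

theorem pw_int {s γ : ℝ} (hγ : γ < 1) (hs : s < T) (C : ℝ) :
    ∫⁻ t in Ioo s T, ENNReal.ofReal (C * (T - t) ^ (-γ)) < ∞ := by
  have h1 : IntervalIntegrable (fun t => (T - t) ^ (-γ)) volume s T := by
    have h2 : IntervalIntegrable (fun x : ℝ => x ^ (-γ)) volume (T - s) 0 :=
      intervalIntegral.intervalIntegrable_rpow' (by linarith)
    have h3 := h2.comp_sub_left T
    rw [sub_sub_cancel, sub_zero] at h3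
    exact h3
  have h2 : IntegrableOn (fun t => C * (T - t) ^ (-γ)) (Ioo s T) := by
    have h3 := (intervalIntegrable_iff_integrableOn_Ioc_of_le hs.le).1 (h1.const_mul C)
    exact h3.mono_set Ioo_subset_Ioc_self
  exact h2.lintegral_lt_top

end

variable {T : ℝ} {u : ℝ → V → V} {p : ℝ → V → ℝ}

/-- the two exponents -/
theorem roots {θ c : ℝ} (hθ : 0 < θ) (hc : 0 ≤ c) (h4 : 4 * θ * c < 1) :
    ∃ a : ℝ, a = (1 - Real.sqrt (1 - 4 * θ * c)) / 2 ∧ 0 ≤ a ∧ a < 1 / 2 ∧
      a * (1 - a) / θ = c ∧ 1 - a = (1 + Real.sqrt (1 - 4 * θ * c)) / 2 := by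
  have h1 : 0 < 1 - 4 * θ * c := by linarith
  have h2 := Real.sqrt_pos.2 h1
  have h3 := Real.sq_sqrt h1.le
  have h5 : Real.sqrt (1 - 4 * θ * c) ≤ 1 := by
    rw [Real.sqrt_le_one]
    have : 0 ≤ 4 * θ * c := by positivity
    linarith
  refine ⟨_, rfl, by linarith, by linarith, ?_, by ring⟩
  rw [div_eq_iff hθ.ne']
  nlinarith

/-- **Type I, compression.** -/
theorem typeC {θ c : ℝ} (hθ : 0 < θ) (hc : 0 ≤ c) (h4 : 4 * θ * c < 1)
    (h : IsC2Solution T u p) {s : ℝ} (hs : s ∈ Ioo 0 T)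
    (hcond : ∀ᵐ t, t ∈ Ioo s T → CondC θ (c / (T - t) ^ 2) (u t) (p t)) {m : ℝ}
    (hm : m < (1 + Real.sqrt (1 - 4 * θ * c)) / (2 * θ * (T - s)))
    (h0 : ∀ x e, e ⬝ᵥ e = 1 → -m ≤ rate (u s) x e) :
    (∃ C : ℝ, ∀ t ∈ Ico s T, ∀ x,
      nrm (vort (u t) x) ≤ C * (T - t) ^ (-((1 - Real.sqrt (1 - 4 * θ * c)) / θ))) ∧
    (1 - Real.sqrt (1 - 4 * θ * c) < θ → BKMFinite T u) := by
  obtain ⟨a, ha, ha0, ha1, hac, hb⟩ := roots hθ hc h4
  have hys : 0 < T - s := by linarith [hs.2]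
  obtain ⟨K, hK0, hK⟩ := exists_K (T := T) (θ := θ) (a := a) hθ ha1 hs.2 (m := m) (by
    rw [hb]
    refine hm.trans_le (le_of_eq ?_)
    field_simp)
  obtain ⟨W, hW0, hW⟩ := vort_bound h.sol hs.2
  have H := compression hθ.le h hs (R := Rs T θ a K) (μ := fun t => c / (T - t) ^ 2)
    (Rs_mono hθ hK0 ha0 (by linarith) s)
    (Eventually.of_forall fun t ht d hd => by
      have := Rs_deriv (a := a) hθ hK0 ht.2
      rw [hac] at this
      exact (this.unique hd).le)
    (fun x e he => by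
      have := h0 x e he
      linarith) hcond
  have hvb := H.2 W (fun x => (hW s ⟨hs.1.le, le_rfl⟩ x).1)
  have hexp : 2 * a / θ = (1 - Real.sqrt (1 - 4 * θ * c)) / θ := by
    rw [ha]; ring
  have hbd : ∀ t ∈ Ico s T, ∀ x, nrm (vort (u t) x)
      ≤ W * Real.exp (2 * Zs T a K s / θ) * (T - t) ^ (-((1 - Real.sqrt (1 - 4 * θ * c)) / θ)) := by
    intro t ht x
    refine (hvb t ht x).trans ?_
    have := exp_int (a := a) hθ hK0 (k := 2) (by norm_num) ht.1 ht.2
    rw [hexp] at this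
    rw [mul_assoc]
    gcongr
  refine ⟨⟨_, hbd⟩, fun hlt => ?_⟩
  refine bkm_of_bound h.sol hs hbd (pw_int ?_ hs.2 _)
  rw [div_lt_one hθ]
  exact hlt

/-- **Type I, stretching.** -/
theorem typeS {θ c : ℝ} (hθ : 0 < θ) (hc : 0 ≤ c) (h4 : 4 * θ * c < 1)
    (h : IsC2Solution T u p) {s : ℝ} (hs : s ∈ Ioo 0 T)
    (hcond : ∀ᵐ t, t ∈ Ioo s T → CondS θ (c / (T - t) ^ 2) (u t) (p t)) {m : ℝ}
    (hm : m < (1 + Real.sqrt (1 - 4 * θ * c)) / (2 * θ * (T - s)))
    (h0 : ∀ x e, e ⬝ᵥ e = 1 → rate (u s) x e ≤ m) :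
    (∃ C : ℝ, ∀ t ∈ Ico s T, ∀ x,
      nrm (vort (u t) x) ≤ C * (T - t) ^ (-((1 - Real.sqrt (1 - 4 * θ * c)) / (2 * θ)))) ∧
    (1 - Real.sqrt (1 - 4 * θ * c) < 2 * θ → BKMFinite T u) := by
  obtain ⟨a, ha, ha0, ha1, hac, hb⟩ := roots hθ hc h4
  have hys : 0 < T - s := by linarith [hs.2]
  obtain ⟨K, hK0, hK⟩ := exists_K (T := T) (θ := θ) (a := a) hθ ha1 hs.2 (m := m) (by
    rw [hb]
    refine hm.trans_le (le_of_eq ?_)
    field_simp)
  obtain ⟨W, hW0, hW⟩ := vort_bound h.sol hs.2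
  have H := stretching hθ.le h hs (R := Rs T θ a K) (μ := fun t => c / (T - t) ^ 2)
    (Rs_mono hθ hK0 ha0 (by linarith) s)
    (Eventually.of_forall fun t ht d hd => by
      have := Rs_deriv (a := a) hθ hK0 ht.2
      rw [hac] at this
      exact (this.unique hd).le)
    (fun x e he => by
      have := h0 x e he
      linarith) hcond
  have hvb := H.2 W (fun x => (hW s ⟨hs.1.le, le_rfl⟩ x).1)
  have hexp : 1 * a / θ = (1 - Real.sqrt (1 - 4 * θ * c)) / (2 * θ) := by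
    rw [ha]; field_simp
  have hbd : ∀ t ∈ Ico s T, ∀ x, nrm (vort (u t) x)
      ≤ W * Real.exp (1 * Zs T a K s / θ)
        * (T - t) ^ (-((1 - Real.sqrt (1 - 4 * θ * c)) / (2 * θ))) := by
    intro t ht x
    refine (hvb t ht x).trans ?_
    have := exp_int (a := a) hθ hK0 (k := 1) (by norm_num) ht.1 ht.2
    rw [hexp] at this
    rw [mul_assoc]
    gcongr
  refine ⟨⟨_, hbd⟩, fun hlt => ?_⟩
  refine bkm_of_bound h.sol hs hbd (pw_int ?_ hs.2 _)
  rw [div_lt_one (by positivity)]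
  exact hlt

end Pool.Agent.TH340.RC
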